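import Mathlib

set_option autoImplicit false

/-!
# The points of nonsingular reduction form a subgroup: any valuation with values in `ℤᵐ⁰`

Port of `Pool.Agent.Y809.BSD14.E0` (helper809).
-/

namespace Pool.Agent.Y891.CTK

open scoped Classical
open WithZero

section val

variable {K : Type} [Field K] {v : Valuation K ℤᵐ⁰}

theorem nadd {a b : K} (ha : v a ≤ 1) (hb : v b ≤ 1) : v (a + b) ≤ 1 := v.map_add_le ha hb

theorem nneg {a : K} (ha : v a ≤ 1) : v (-a) ≤ 1 := by rwa [v.map_neg]

theorem nsub {a b : K} (ha : v a ≤ 1) (hb : v b ≤ 1) : v (a - b) ≤ 1 := by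
  rw [sub_eq_add_neg]
  exact nadd ha (nneg hb)

theorem nmul {a b : K} (ha : v a ≤ 1) (hb : v b ≤ 1) : v (a * b) ≤ 1 := by
  rw [v.map_mul]
  exact mul_le_one' ha hb

theorem npow {a : K} (ha : v a ≤ 1) (n : ℕ) : v (a ^ n) ≤ 1 := by
  rw [v.map_pow]
  exact pow_le_one' ha n

theorem ladd {a b : K} (ha : v a < 1) (hb : v b < 1) : v (a + b) < 1 := v.map_add_lt ha hb

theorem lneg {a : K} (ha : v a < 1) : v (-a) < 1 := by rwa [v.map_neg]

theorem lsub {a b : K} (ha : v a < 1) (hb : v b < 1) : v (a - b) < 1 := by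
  rw [sub_eq_add_neg]
  exact ladd ha (lneg hb)

theorem lmul {a b : K} (ha : v a ≤ 1) (hb : v b < 1) : v (a * b) < 1 := by
  rw [v.map_mul]
  calc v a * v b ≤ 1 * v b := mul_le_mul' ha le_rfl
    _ < 1 := by rwa [one_mul]

theorem lmul' {a b : K} (ha : v a < 1) (hb : v b ≤ 1) : v (a * b) < 1 := by
  rw [mul_comm]
  exact lmul hb ha

theorem n1 : v (1 : K) ≤ 1 := v.map_one.le

theorem n2 : v (2 : K) ≤ 1 := by
  rw [← one_add_one_eq_two]
  exact nadd n1 n1

theorem n3 : v (3 : K) ≤ 1 := by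
  rw [← two_add_one_eq_three]
  exact nadd n2 n1

/-- if the sum of two is dominated -/
theorem v_eq_of_lt {a b : K} (h : v b < v a) : v (a + b) = v a := v.map_add_eq_of_lt_left h

theorem pos_of_one_lt {x : ℤᵐ⁰} (h : 1 < x) : 0 < x := zero_lt_one.trans h

theorem root_int {x s q : K} (h : x * x = s * x - q) (hs : v s ≤ 1) (hq : v q ≤ 1) : v x ≤ 1 := by
  by_contra hx
  rw [not_le] at hx
  have h1 := congrArg v h
  rw [v.map_mul] at h1
  have h2 : v (s * x - q) ≤ v x := by
    rw [sub_eq_add_neg]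
    refine (v.map_add _ _).trans (max_le ?_ ?_)
    · rw [v.map_mul]
      calc v s * v x ≤ 1 * v x := mul_le_mul' hs le_rfl
        _ = v x := one_mul _
    · rw [v.map_neg]
      exact hq.trans hx.le
  rw [← h1] at h2
  have h3 : v x * v x ≤ v x * 1 := by rwa [mul_one]
  exact absurd (le_of_mul_le_mul_left h3 (pos_of_one_lt hx)) (not_le.2 hx)

variable (v) in
/-- integral with singular reduction -/
structure Sg (a1 a2 a3 a4 x y : K) : Prop where
  x1 : v x ≤ 1
  y1 : v y ≤ 1
  fx : v (a1 * y - (3 * x ^ 2 + 2 * a2 * x + a4)) < 1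
  fy : v (2 * y + a1 * x + a3) < 1

variable {a1 a2 a3 a4 a6 : K} (h1 : v a1 ≤ 1) (h2 : v a2 ≤ 1) (h3 : v a3 ≤ 1) (h4 : v a4 ≤ 1)

include h1 h2 in
theorem Sg.close {x y x' y' : K} (h : Sg v a1 a2 a3 a4 x y) (hx : v (x' - x) < 1)
    (hy : v (y' - y) < 1) : Sg v a1 a2 a3 a4 x' y' := by
  have hx' : v x' ≤ 1 := by
    have : x' = (x' - x) + x := by ring
    rw [this]
    exact nadd hx.le h.x1
  have hy' : v y' ≤ 1 := by
    have : y' = (y' - y) + y := by ring
    rw [this]
    exact nadd hy.le h.y1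
  refine ⟨hx', hy', ?_, ?_⟩
  · have e : a1 * y' - (3 * x' ^ 2 + 2 * a2 * x' + a4) =
        (a1 * y - (3 * x ^ 2 + 2 * a2 * x + a4)) + (a1 * (y' - y) -
          (3 * (x' + x) + 2 * a2) * (x' - x)) := by ring
    rw [e]
    exact ladd h.fx (lsub (lmul h1 hy) (lmul (nadd (nmul n3 (nadd hx' h.x1)) (nmul n2 h2)) hx))
  · have e : 2 * y' + a1 * x' + a3 = (2 * y + a1 * x + a3) + (2 * (y' - y) + a1 * (x' - x)) := by
      ring
    rw [e]
    exact ladd h.fy (ladd (lmul n2 hy) (lmul h1 hx))

include h1 h2 h3 h4 in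
/-- The main argument. -/
theorem core {x1 y1 x2 y2 x3 y3 l c : K} (e1 : y1 = l * x1 + c) (e2 : y2 = l * x2 + c)
    (e3 : y3 = l * x3 + c) (s1 : x1 + x2 + x3 = l ^ 2 + a1 * l - a2)
    (s2 : x1 * x2 + x1 * x3 + x2 * x3 = -(2 * l * c + a1 * c + a3 * l - a4))
    (hR : Sg v a1 a2 a3 a4 x3 y3) : Sg v a1 a2 a3 a4 x1 y1 ∨ Sg v a1 a2 a3 a4 x2 y2 := by
  rcases le_or_gt (v l) 1 with hl | hl
  · have hc : v c ≤ 1 := by
      have : c = y3 - l * x3 := by rw [e3]; ring
      rw [this]
      exact nsub hR.y1 (nmul hl hR.x1)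
    have hs : v (x1 + x2) ≤ 1 := by
      have : x1 + x2 = l ^ 2 + a1 * l - a2 - x3 := by linear_combination s1
      rw [this]
      exact nsub (nsub (nadd (npow hl 2) (nmul h1 hl)) h2) hR.x1
    have hq : v (x1 * x2) ≤ 1 := by
      have : x1 * x2 = -(2 * l * c + a1 * c + a3 * l - a4) - x3 * (x1 + x2) := by
        linear_combination s2
      rw [this]
      exact nsub (nneg (nsub (nadd (nadd (nmul (nmul n2 hl) hc) (nmul h1 hc)) (nmul h3 hl)) h4))
        (nmul hR.x1 hs)
    have hx1 : v x1 ≤ 1 := root_int (s := x1 + x2) (q := x1 * x2) (by ring) hs hq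
    have hx2 : v x2 ≤ 1 := root_int (s := x1 + x2) (q := x1 * x2) (by ring) hs hq
    have hprod : (x3 - x1) * (x3 - x2) = -((a1 * y3 - (3 * x3 ^ 2 + 2 * a2 * x3 + a4)) +
        l * (2 * y3 + a1 * x3 + a3)) := by
      rw [e3]
      linear_combination (-2 * x3) * s1 + s2
    have hlt : v (x3 - x1) * v (x3 - x2) < 1 := by
      rw [← v.map_mul, hprod]
      exact lneg (ladd hR.fx (lmul hl hR.fy))
    have hor : v (x3 - x1) < 1 ∨ v (x3 - x2) < 1 := by
      by_contra hcon
      rw [not_or, not_lt, not_lt] at hcon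
      exact absurd (one_le_mul hcon.1 hcon.2) (not_le.2 hlt)
    rcases hor with h | h
    · left
      have hx : v (x1 - x3) < 1 := by rw [← v.map_neg, neg_sub]; exact h
      refine hR.close h1 h2 hx ?_
      have : y1 - y3 = l * (x1 - x3) := by rw [e1, e3]; ring
      rw [this]
      exact lmul hl hx
    · right
      have hx : v (x2 - x3) < 1 := by rw [← v.map_neg, neg_sub]; exact h
      refine hR.close h1 h2 hx ?_
      have : y2 - y3 = l * (x2 - x3) := by rw [e2, e3]; ring
      rw [this]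
      exact lmul hl hx
  · have hl0 : l ≠ 0 := by
      rintro rfl
      rw [v.map_zero] at hl
      exact absurd hl (not_lt.2 zero_le_one)
    obtain ⟨mu, hmu⟩ : ∃ mu : K, l * mu = 1 := ⟨l⁻¹, mul_inv_cancel₀ hl0⟩
    have hm : v mu < 1 := by
      have h5 := congrArg v hmu
      rw [v.map_mul, v.map_one] at h5
      by_contra h
      rw [not_lt] at h
      exact absurd h5 (one_lt_mul_of_lt_of_le' hl h).ne'
    have hm0 : mu ≠ 0 := by
      rintro rfl
      rw [mul_zero] at hmu
      exact zero_ne_one hmu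
    obtain ⟨d, hd⟩ : ∃ d : K, d = -mu * c := ⟨_, rfl⟩
    have f1 : x1 = mu * y1 + d := by rw [hd, e1]; linear_combination (-x1) * hmu
    have f2 : x2 = mu * y2 + d := by rw [hd, e2]; linear_combination (-x2) * hmu
    have f3 : x3 = mu * y3 + d := by rw [hd, e3]; linear_combination (-x3) * hmu
    have fc : c = -l * d := by rw [hd]; linear_combination (-c) * hmu
    have hd1 : v d ≤ 1 := by
      have : d = x3 - mu * y3 := by rw [f3]; ring
      rw [this]
      exact nsub hR.x1 (nmul hm.le hR.y1)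
    have A : 1 + a1 * mu - 3 * mu ^ 2 * d - a2 * mu ^ 2 = mu ^ 3 * (y1 + y2 + y3) := by
      rw [f1, f2, f3] at s1
      linear_combination (-mu ^ 2) * s1 - (l * mu + 1 + a1 * mu) * hmu
    have B : a1 * d + a3 - 3 * mu * d ^ 2 - 2 * a2 * mu * d - a4 * mu =
        -(mu ^ 3 * (y1 * y2 + y1 * y3 + y2 * y3)) := by
      rw [f1, f2, f3] at s1
      rw [f1, f2, f3, fc] at s2
      linear_combination mu * s2 - 2 * mu * d * s1 - (a1 * d + a3) * hmu
    have D : mu * (a1 * y3 - (3 * x3 ^ 2 + 2 * a2 * x3 + a4)) + (2 * y3 + a1 * x3 + a3) =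
        -(mu ^ 3 * ((y3 - y1) * (y3 - y2))) := by
      rw [f3]
      linear_combination 2 * y3 * A + B
    have hA : v (mu ^ 3 * (y1 + y2 + y3)) = 1 := by
      rw [← A]
      have e : 1 + a1 * mu - 3 * mu ^ 2 * d - a2 * mu ^ 2 =
          1 + (a1 - 3 * mu * d - a2 * mu) * mu := by ring
      rw [e, v_eq_of_lt, v.map_one]
      rw [v.map_one]
      exact lmul (nsub (nsub h1 (nmul (nmul n3 hm.le) hd1)) (nmul h2 hm.le)) hm
    have hB : v (mu ^ 3 * (y1 * y2 + y1 * y3 + y2 * y3)) ≤ 1 := by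
      rw [← v.map_neg, ← B]
      exact nsub (nsub (nsub (nadd (nmul h1 hd1) h3) (nmul (nmul n3 hm.le) (npow hd1 2)))
        (nmul (nmul (nmul n2 h2) hm.le) hd1)) (nmul h4 hm.le)
    have hD : v (mu ^ 3 * ((y3 - y1) * (y3 - y2))) < 1 := by
      rw [← v.map_neg, ← D]
      exact ladd (lmul hm.le hR.fx) hR.fy
    have hm3 : v (mu ^ 3) < 1 := by
      rw [pow_succ]
      exact lmul (npow hm.le 2) hm
    -- one of the two is integral: then it is close to `R`
    have key : ∀ {y1 y2 : K}, v (mu ^ 3 * (y1 + y2 + y3)) = 1 →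
        v (mu ^ 3 * ((y3 - y1) * (y3 - y2))) < 1 → v y1 ≤ 1 → v (y1 - y3) < 1 := by
      intro y1 y2 hA hD hy1
      have hy2 : 1 < v y2 := by
        by_contra h
        rw [not_lt] at h
        have := lmul' hm3 (nadd (nadd hy1 h) hR.y1)
        rw [hA] at this
        exact lt_irrefl _ this
      have e5 : v (mu ^ 3 * y2) = 1 := by
        rw [← hA, v.map_mul, v.map_mul]
        congr 1
        have e : y1 + y2 + y3 = y2 + (y1 + y3) := by ring
        rw [e, v_eq_of_lt]
        exact (nadd hy1 hR.y1).trans_lt hy2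
      have e6 : v (y3 - y2) = v y2 := by
        have e : y3 - y2 = -y2 + y3 := by ring
        rw [e, v_eq_of_lt, v.map_neg]
        rw [v.map_neg]
        exact hR.y1.trans_lt hy2
      have e7 : v (mu ^ 3 * ((y3 - y1) * (y3 - y2))) = v (y3 - y1) := by
        rw [v.map_mul, v.map_mul, e6]
        rw [v.map_mul] at e5
        calc v (mu ^ 3) * (v (y3 - y1) * v y2) = (v (mu ^ 3) * v y2) * v (y3 - y1) := by
              rw [mul_assoc, mul_comm (v y2)]
          _ = v (y3 - y1) := by rw [e5, one_mul]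
      rw [e7] at hD
      rw [← v.map_neg, neg_sub]
      exact hD
    rcases le_or_gt (v y1) 1 with g1 | g1
    · left
      have hy := key hA hD g1
      refine hR.close h1 h2 ?_ hy
      have : x1 - x3 = mu * (y1 - y3) := by rw [f1, f3]; ring
      rw [this]
      exact lmul hm.le hy
    rcases le_or_gt (v y2) 1 with g2 | g2
    · right
      have hA' : v (mu ^ 3 * (y2 + y1 + y3)) = 1 := by rw [add_comm y2 y1]; exact hA
      have hD' : v (mu ^ 3 * ((y3 - y2) * (y3 - y1))) < 1 := by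
        rw [mul_comm (y3 - y2)]; exact hD
      have hy := key hA' hD' g2
      refine hR.close h1 h2 ?_ hy
      have : x2 - x3 = mu * (y2 - y3) := by rw [f2, f3]; ring
      rw [this]
      exact lmul hm.le hy
    exfalso
    -- both are not integral
    have key2 : ∀ {y1 y2 : K}, 1 < v y1 → 1 < v y2 → v y2 ≤ v y1 →
        v (mu ^ 3 * (y1 + y2 + y3)) = 1 → v (mu ^ 3 * (y1 * y2 + y1 * y3 + y2 * y3)) ≤ 1 →
        False := by
      intro y1 y2 g1 g2 h12 hA hB
      have e5 : 1 ≤ v (mu ^ 3) * v y1 := by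
        rw [← hA, v.map_mul]
        apply mul_le_mul' le_rfl
        refine (v.map_add _ _).trans (max_le
          ((v.map_add _ _).trans (max_le le_rfl h12)) ?_)
        exact hR.y1.trans g1.le
      have e6 : v (y1 * y2 + y1 * y3 + y2 * y3) = v y1 * v y2 := by
        rw [add_assoc, v_eq_of_lt, v.map_mul]
        rw [v.map_mul y1 y2]
        refine (v.map_add _ _).trans_lt (max_lt ?_ ?_)
        · rw [v.map_mul]
          exact mul_lt_mul_of_pos_left (hR.y1.trans_lt g2) (pos_of_one_lt g1)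
        · rw [v.map_mul]
          calc v y2 * v y3 ≤ v y2 * 1 := mul_le_mul' le_rfl hR.y1
            _ = 1 * v y2 := by rw [mul_one, one_mul]
            _ < v y1 * v y2 := mul_lt_mul_of_pos_right g1 (pos_of_one_lt g2)
      rw [v.map_mul, e6] at hB
      have : 1 < v (mu ^ 3) * (v y1 * v y2) := by
        rw [← mul_assoc]
        calc 1 < v y2 := g2
          _ = 1 * v y2 := (one_mul _).symm
          _ ≤ (v (mu ^ 3) * v y1) * v y2 := mul_le_mul' e5 le_rfl
      exact absurd hB (not_le.2 this)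
    rcases le_total (v y2) (v y1) with h | h
    · exact key2 g1 g2 h hA hB
    · refine key2 g2 g1 h ?_ ?_
      · rw [add_comm y2 y1]; exact hA
      · have e : y2 * y1 + y2 * y3 + y1 * y3 = y1 * y2 + y1 * y3 + y2 * y3 := by ring
        rw [e]; exact hB

include h1 h3 in
theorem sg_neg {x y : K} (h : Sg v a1 a2 a3 a4 x y) :
    Sg v a1 a2 a3 a4 x (-y - a1 * x - a3) := by
  refine ⟨h.x1, nsub (nsub (nneg h.y1) (nmul h1 h.x1)) h3, ?_, ?_⟩
  · have e : a1 * (-y - a1 * x - a3) - (3 * x ^ 2 + 2 * a2 * x + a4) =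
        (a1 * y - (3 * x ^ 2 + 2 * a2 * x + a4)) - a1 * (2 * y + a1 * x + a3) := by ring
    rw [e]
    exact lsub h.fx (lmul h1 h.fy)
  · have e : 2 * (-y - a1 * x - a3) + a1 * x + a3 = -(2 * y + a1 * x + a3) := by ring
    rw [e]
    exact lneg h.fy

/-- a bound for products -/
theorem vmul_le {a b : K} (ha : v a ≤ 1) : v (a * b) ≤ v b := by
  rw [v.map_mul]
  calc v a * v b ≤ 1 * v b := mul_le_mul' ha le_rfl
    _ = v b := one_mul _

variable (h6 : v a6 ≤ 1)

include h1 h2 h3 h4 h6 in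
/-- If both partial derivatives are in the maximal ideal then the point is integral. -/
theorem integral_of {x y : K} (he : y ^ 2 + a1 * x * y + a3 * y = x ^ 3 + a2 * x ^ 2 + a4 * x + a6)
    (fx : v (a1 * y - (3 * x ^ 2 + 2 * a2 * x + a4)) < 1) (fy : v (2 * y + a1 * x + a3) < 1) :
    Sg v a1 a2 a3 a4 x y := by
  have hx : v x ≤ 1 := by
    by_contra hx
    rw [not_le] at hx
    have hx0 : 0 < v x := pos_of_one_lt hx
    have hxx : v x < v (x ^ 2) := by
      rw [sq, v.map_mul]
      calc v x = 1 * v x := (one_mul _).symm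
        _ < v x * v x := mul_lt_mul_of_pos_right hx hx0
    have hx2 : 1 < v (x ^ 2) := hx.trans hxx
    have hxxx : v (x ^ 2) < v (x ^ 3) := by
      rw [pow_succ x 2, v.map_mul]
      calc v (x ^ 2) = v (x ^ 2) * 1 := (mul_one _).symm
        _ < v (x ^ 2) * v x := mul_lt_mul_of_pos_left hx (pos_of_one_lt hx2)
    have hR : v (x ^ 3 + a2 * x ^ 2 + a4 * x + a6) = v (x ^ 3) := by
      rw [add_assoc, add_assoc, v_eq_of_lt]
      refine lt_of_le_of_lt ?_ hxxx
      refine (v.map_add _ _).trans (max_le (vmul_le h2) ((v.map_add _ _).trans (max_le ?_ ?_)))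
      · exact (vmul_le h4).trans hxx.le
      · exact h6.trans hx2.le
    -- `v y` is larger than `v x`
    have hyx : v x < v y := by
      by_contra hc
      rw [not_lt] at hc
      have hL : v (y ^ 2 + a1 * x * y + a3 * y) ≤ v (x ^ 2) := by
        refine (v.map_add _ _).trans (max_le ((v.map_add _ _).trans (max_le ?_ ?_)) ?_)
        · rw [v.map_pow, v.map_pow]
          exact pow_le_pow_left' hc 2
        · rw [mul_assoc]
          refine (vmul_le h1).trans ?_
          rw [sq, v.map_mul, v.map_mul]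
          exact mul_le_mul' le_rfl hc
        · exact (vmul_le h3).trans (hc.trans hxx.le)
      rw [he, hR] at hL
      exact absurd hL (not_le.2 hxxx)
    have hy : 1 < v y := hx.trans hyx
    have hy0 : 0 < v y := pos_of_one_lt hy
    have hL : v (y ^ 2 + a1 * x * y + a3 * y) = v (y ^ 2) := by
      rw [add_assoc, v_eq_of_lt]
      rw [sq, v.map_mul y y]
      refine (v.map_add _ _).trans_lt (max_lt ?_ ?_)
      · rw [mul_assoc]
        refine (vmul_le h1).trans_lt ?_
        rw [v.map_mul]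
        exact mul_lt_mul_of_pos_right hyx hy0
      · refine (vmul_le h3).trans_lt ?_
        calc v y = 1 * v y := (one_mul _).symm
          _ < v y * v y := mul_lt_mul_of_pos_right hy hy0
    have heq : v (y ^ 2) = v (x ^ 3) := by rw [← hL, he, hR]
    have hyxx : v y < v (x ^ 2) := by
      by_contra hc
      rw [not_lt] at hc
      have g1 : v (x ^ 2) * v (x ^ 2) ≤ v (y ^ 2) := by
        rw [sq y, v.map_mul]
        exact mul_le_mul' hc hc
      rw [heq, pow_succ x 2, v.map_mul] at g1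
      exact absurd (le_of_mul_le_mul_left g1 (pos_of_one_lt hx2)) (not_le.2 hxx)
    rcases (n2 (v := v)).eq_or_lt with h2' | h2'
    · have g : v (2 * y + (a1 * x + a3)) = v y := by
        rw [v_eq_of_lt, v.map_mul, h2', one_mul]
        rw [v.map_mul 2 y, h2', one_mul]
        exact (v.map_add _ _).trans_lt (max_lt ((vmul_le h1).trans_lt hyx) (h3.trans_lt hy))
      rw [add_assoc, g] at fy
      exact absurd fy (not_lt.2 hy.le)
    · have h3' : v (3 : K) = 1 := by
        have e : (3 : K) = 1 + 2 := by norm_num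
        rw [e, v_eq_of_lt, v.map_one]
        rw [v.map_one]
        exact h2'
      have g : v (3 * x ^ 2 + (2 * a2 * x + a4 - a1 * y)) = v (x ^ 2) := by
        rw [v_eq_of_lt, v.map_mul, h3', one_mul]
        rw [v.map_mul 3, h3', one_mul]
        rw [sub_eq_add_neg]
        refine (v.map_add _ _).trans_lt (max_lt ((v.map_add _ _).trans_lt (max_lt ?_ ?_)) ?_)
        · exact (vmul_le (nmul n2 h2)).trans_lt hxx
        · exact h4.trans_lt hx2
        · rw [v.map_neg]
          exact (vmul_le h1).trans_lt hyxx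
      have e : a1 * y - (3 * x ^ 2 + 2 * a2 * x + a4) =
          -(3 * x ^ 2 + (2 * a2 * x + a4 - a1 * y)) := by ring
      rw [e, v.map_neg, g] at fx
      exact absurd fx (not_lt.2 hx2.le)
  have hy : v y ≤ 1 := by
    refine root_int (s := -(a1 * x + a3)) (q := -(x ^ 3 + a2 * x ^ 2 + a4 * x + a6))
      (by linear_combination he) (nneg (nadd (nmul h1 hx) h3)) (nneg ?_)
    exact nadd (nadd (nadd (npow hx 3) (nmul h2 (npow hx 2))) (nmul h4 hx)) h6
  exact ⟨hx, hy, fx, fy⟩

end val

end Pool.Agent.Y891.CTK
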