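import Pool.Agent.Y696.Stm
import Pool.Agent.Y891.CTK.Core

set_option autoImplicit false

/-!
# The subgroup of the points of nonsingular reduction
-/

namespace Pool.Agent.Y891.CTK

open scoped Classical
open WithZero WeierstrassCurve WeierstrassCurve.Affine Polynomial
open Pool.Agent.Y696 (NonsingRed)

section line

variable {K : Type} [Field K] {W : WeierstrassCurve.Affine K}

/-- The relations between the coordinates of `P`, `Q`, `-(P + Q)`. -/
theorem line_rel {x₁ x₂ y₁ y₂ : K} (h₁ : W.Equation x₁ y₁) (h₂ : W.Equation x₂ y₂)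
    (hxy : ¬(x₁ = x₂ ∧ y₁ = W.negY x₂ y₂)) :
    let l := W.slope x₁ x₂ y₁ y₂
    let c := y₁ - l * x₁
    let x₃ := W.addX x₁ x₂ l
    y₂ = l * x₂ + c ∧ x₁ + x₂ + x₃ = l ^ 2 + W.a₁ * l - W.a₂ ∧
      x₁ * x₂ + x₁ * x₃ + x₂ * x₃ = -(2 * l * c + W.a₁ * c + W.a₃ * l - W.a₄) := by
  intro l c x₃
  refine ⟨?_, ?_, ?_⟩
  · by_cases hx : x₁ = x₂
    · have hy : y₁ ≠ W.negY x₂ y₂ := fun h => hxy ⟨hx, h⟩
      rw [← Y_eq_of_Y_ne h₁ h₂ hx hy, ← hx]
      show y₁ = l * x₁ + (y₁ - l * x₁)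
      ring
    · have hl : l = (y₁ - y₂) / (x₁ - x₂) := slope_of_X_ne hx
      have h0 : x₁ - x₂ ≠ 0 := sub_ne_zero.2 hx
      have h3 : l * (x₁ - x₂) = y₁ - y₂ := by rw [hl, div_mul_cancel₀ _ h0]
      show y₂ = l * x₂ + (y₁ - l * x₁)
      linear_combination h3
  · show x₁ + x₂ + W.addX x₁ x₂ l = _
    rw [Affine.addX]
    ring
  · have h3 := addPolynomial_slope h₁ h₂ hxy
    rw [addPolynomial_eq, neg_inj, Cubic.prod_X_sub_C_eq, Cubic.toPoly_injective] at h3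
    have h4 := congrArg Cubic.c h3
    simp only at h4
    show x₁ * x₂ + x₁ * W.addX x₁ x₂ l + x₂ * W.addX x₁ x₂ l =
      -(2 * l * (y₁ - l * x₁) + W.a₁ * (y₁ - l * x₁) + W.a₃ * l - W.a₄)
    linear_combination -h4

end line

section sub

variable {L : Type} [Field L] (v : Valuation L ℤᵐ⁰) (W : WeierstrassCurve L)

theorem ns_iff (h1 : v W.a₁ ≤ 1) (h2 : v W.a₂ ≤ 1) (h3 : v W.a₃ ≤ 1) (h4 : v W.a₄ ≤ 1)
    (h6 : v W.a₆ ≤ 1) {x y : L} (h : W.toAffine.Nonsingular x y) :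
    NonsingRed v W (.some x y h) ↔ ¬ Sg v W.a₁ W.a₂ W.a₃ W.a₄ x y := by
  have e : v (3 * x ^ 2 + 2 * W.a₂ * x + W.a₄ - W.a₁ * y) =
      v (W.a₁ * y - (3 * x ^ 2 + 2 * W.a₂ * x + W.a₄)) := by
    rw [← v.map_neg, neg_sub]
  have hd : NonsingRed v W (.some x y h) ↔ (1 ≤ v (2 * y + W.a₁ * x + W.a₃) ∨
      1 ≤ v (3 * x ^ 2 + 2 * W.a₂ * x + W.a₄ - W.a₁ * y)) := Iff.rfl
  rw [hd, e]
  constructor
  · rintro (g | g) hs
    · exact absurd g (not_le.2 hs.fy)
    · exact absurd g (not_le.2 hs.fx)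
  · intro hs
    by_contra hc
    rw [not_or, not_le, not_le] at hc
    exact hs (integral_of h1 h2 h3 h4 h6 ((Affine.equation_iff _ _).1 h.1) hc.2 hc.1)

theorem sub_of (h1 : v W.a₁ ≤ 1) (h2 : v W.a₂ ≤ 1) (h3 : v W.a₃ ≤ 1) (h4 : v W.a₄ ≤ 1)
    (h6 : v W.a₆ ≤ 1) : ∃ H : AddSubgroup W.toAffine.Point, ∀ P, P ∈ H ↔ NonsingRed v W P := by
  have hzero : NonsingRed v W (0 : W.toAffine.Point) := trivial
  have hadd : ∀ P Q : W.toAffine.Point, NonsingRed v W P → NonsingRed v W Q →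
      NonsingRed v W (P + Q) := by
    intro P Q hP hQ
    have hP' : NonsingRed v W P := hP
    have hQ' : NonsingRed v W Q := hQ
    rcases P with _ | ⟨x₁, y₁, h₁⟩
    · rw [← WeierstrassCurve.Affine.Point.zero_def, zero_add]
      exact hQ
    rcases Q with _ | ⟨x₂, y₂, h₂⟩
    · rw [← WeierstrassCurve.Affine.Point.zero_def, add_zero]
      exact hP
    by_cases hxy : x₁ = x₂ ∧ y₁ = W.toAffine.negY x₂ y₂
    · rw [WeierstrassCurve.Affine.Point.add_of_Y_eq hxy.1 hxy.2]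
      exact hzero
    · rw [WeierstrassCurve.Affine.Point.add_some hxy, ns_iff v W h1 h2 h3 h4 h6]
      rw [ns_iff v W h1 h2 h3 h4 h6] at hP' hQ'
      intro hs
      obtain ⟨r1, r2, r3⟩ := line_rel h₁.1 h₂.1 hxy
      have hs' := sg_neg h1 h3 hs
      set l := W.toAffine.slope x₁ x₂ y₁ y₂ with hl
      set x₃ := W.toAffine.addX x₁ x₂ l with hx3
      have e3 : -W.toAffine.addY x₁ x₂ y₁ l - W.a₁ * x₃ - W.a₃ = l * x₃ + (y₁ - l * x₁) := by
        simp only [WeierstrassCurve.Affine.addY, WeierstrassCurve.Affine.negAddY,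
          WeierstrassCurve.Affine.negY]
        rw [← hx3]
        ring
      rw [e3] at hs'
      rcases core h1 h2 h3 h4 (x1 := x₁) (y1 := y₁) (x2 := x₂) (y2 := y₂) (x3 := x₃) (l := l)
        (c := y₁ - l * x₁) (by ring) r1 rfl r2 r3 hs' with h5 | h5
      · exact hP' h5
      · exact hQ' h5
  have hneg : ∀ P : W.toAffine.Point, NonsingRed v W P → NonsingRed v W (-P) := by
    intro P hP
    have hP' : NonsingRed v W P := hP
    rcases P with _ | ⟨x₁, y₁, h₁⟩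
    · rw [← WeierstrassCurve.Affine.Point.zero_def, neg_zero]
      exact hzero
    · rw [WeierstrassCurve.Affine.Point.neg_some, ns_iff v W h1 h2 h3 h4 h6]
      rw [ns_iff v W h1 h2 h3 h4 h6] at hP'
      intro hs
      have hs' := sg_neg h1 h3 hs
      have e3 : -W.toAffine.negY x₁ y₁ - W.a₁ * x₁ - W.a₃ = y₁ := by
        simp only [WeierstrassCurve.Affine.negY]
        ring
      rw [e3] at hs'
      exact hP' hs'
  let H : AddSubgroup W.toAffine.Point :=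
    { carrier := {P | NonsingRed v W P}
      zero_mem' := hzero
      add_mem' := fun {P Q} hP hQ => hadd P Q hP hQ
      neg_mem' := fun {P} hP => hneg P hP }
  exact ⟨H, fun P => Iff.rfl⟩

end sub

end Pool.Agent.Y891.CTK
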