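import Pool.Agent.Y696.CTK.Stm
import Pool.Agent.TH841.NF.Brd

set_option autoImplicit false

/-!
# CTK-SH: the `3`-primary part of the Tate-Shafarevich group over `K`
-/

namespace Pool.Agent.Y891.CTK

open scoped Classical
open NumberField IsDedekindDomain WeierstrassCurve WithZero
open Pool.Agent.Y692.QS (Ei w nr toC)
open Pool.Agent.Y703.CT
open Pool.Agent.Y696.CTK (ED)
open Pool.Agent.Y715.T.Gi Pool.Agent.Y715.T.Nr Pool.Agent.Y715.T.Df Pool.Agent.Y715.T.Ell
open Pool.Agent.TH841.NF (Sc tF tF_add aut_of_two place_p)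
open Pool.Agent.TH841.SH.D (Coch Gal IsCoc IsCob LocTriv)

/-- powers of `[ω]` on points -/
theorem jj_some {L : Type} [Field L] [Algebra ℚ L] [CharZero L] {I : L} (hI : I ^ 2 + I + 1 = 0)
    (c : ZMod 3) {x y : L} (h : (W0.baseChange L).toAffine.Nonsingular x y) :
    ∃ h' : (W0.baseChange L).toAffine.Nonsingular (I ^ c.val * x) y,
      jj hI c (.some x y h) = .some (I ^ c.val * x) y h' := by
  unfold jj
  generalize c.val = n
  induction n with
  | zero =>
    have h' : (W0.baseChange L).toAffine.Nonsingular (I ^ 0 * x) y := by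
      rwa [pow_zero, one_mul]
    refine ⟨h', ?_⟩
    rw [Function.iterate_zero, id_eq, Affine.Point.some.injEq]
    exact ⟨by ring, rfl⟩
  | succ n ih =>
    obtain ⟨h', e⟩ := ih
    have h2 : (W0.baseChange L).toAffine.Nonsingular (I ^ (n + 1) * x) y := by
      have := (isE L).im_nons hI h'
      rwa [← mul_assoc, ← pow_succ'] at this
    refine ⟨h2, ?_⟩
    rw [Function.iterate_succ', Function.comp_apply, e, im_some, Affine.Point.some.injEq]
    exact ⟨by ring, rfl⟩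

theorem jj_zero' {L : Type} [Field L] [Algebra ℚ L] [CharZero L] {I : L} (hI : I ^ 2 + I + 1 = 0)
    (c : ZMod 3) : jj hI c (0 : Pt L) = 0 := by
  unfold jj
  exact Function.iterate_fixed (map_zero _) _

theorem pt_eq {F : Type} [Field F] {W : WeierstrassCurve F} {x y x' y' : F}
    (h : W.toAffine.Nonsingular x y) (h' : W.toAffine.Nonsingular x' y') (hx : x = x')
    (hy : y = y') : (Affine.Point.some x y h : W.toAffine.Point) = .some x' y' h' := by
  subst hx hy
  rfl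

/-- the scaling -/
theorem scal {L : Type} [Field L] {I s : L} (hI : I ^ 2 + I + 1 = 0) (hs : s ≠ 0) (c : ZMod 3) :
    I ^ c.val * ((I ^ (-c).val * s)⁻¹) ^ 2 = (s⁻¹) ^ 2 ∧ ((I ^ (-c).val * s)⁻¹) ^ 3 = (s⁻¹) ^ 3 := by
  have hI3 : I ^ 3 = 1 := by linear_combination (I - 1) * hI
  have hI0 : I ≠ 0 := by
    rintro rfl
    rw [zero_pow (by norm_num)] at hI3
    exact zero_ne_one hI3
  constructor
  · have e2 : (I ^ (-c).val) ^ 2 = I ^ c.val := by
      rcases z3 c with rfl | rfl | rfl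
      · simp
      · have a1 : (-1 : ZMod 3).val = 2 := by decide
        have a2 : (1 : ZMod 3).val = 1 := by decide
        rw [a1, a2]
        linear_combination I * hI3
      · have a1 : (-1 : ZMod 3).val = 2 := by decide
        have a2 : (1 : ZMod 3).val = 1 := by decide
        rw [neg_neg, a1, a2]
        ring
    have hI' : I ^ c.val ≠ 0 := pow_ne_zero _ hI0
    rw [inv_pow, mul_pow, e2]
    field_simp
  · have e3 : (I ^ (-c).val) ^ 3 = 1 := by rw [← pow_mul, mul_comm, pow_mul, hI3, one_pow]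
    rw [inv_pow, mul_pow, e3, one_mul, inv_pow]

section loc

variable {K : Type} [Field K] [NumberField K] {d : K} {e : AlgebraicClosure K ≃+* QB} {i₀ : QB}
  (hi : i₀ ^ 2 + i₀ + 1 = 0) {u : QB} (hu0 : u ≠ 0)
  (hu : u ^ 3 = e (algebraMap K (AlgebraicClosure K) d)) {a : GK i₀ → ZMod 3}
  (ha : ∀ σ : GK i₀, σ u = i₀ ^ (-a σ).val * u)
  {Ψ : Pool.Agent.TH841.SH.D.Pt (ED d) (AlgebraicClosure K) ≃+ Pt QB}
  {g : Gal K ≃* GK i₀} (hg : ∀ (σ : Gal K) (x : AlgebraicClosure K), e (σ x) = g σ (e x))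
  (hΨ : ∀ (x y : AlgebraicClosure K) (h), ∃ h', Ψ (Affine.Point.some x y h) =
      Affine.Point.some (e x / u ^ 2) (e y / u ^ 3) h')

include hu0 hu ha hg hΨ in
theorem local_part {f : Coch (ED d)} (hf : Pool.Agent.TH841.NF.D.IsShaCoc (ED d) f)
    (p : ℕ) [Fact p.Prime] (ι : QB →ₐ[ℚ] PadicAlgCl p) :
    ∃ R : Pt (PadicAlgCl p), ∀ (τ : Au p) (σ : GK i₀), Cmp ι τ σ →
      pm ι (Ψ (f (g.symm σ))) = jj (iota_sq' hi ι) (a σ) (pm (lh τ) R) - R := by
  obtain ⟨v, β, hβ, hfix⟩ := place_p (p := p) ((ι : QB →+* PadicAlgCl p).comp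
    ((e : AlgebraicClosure K →+* QB).comp (algebraMap K (AlgebraicClosure K))))
  let i1 : Algebra (v.adicCompletion K) (PadicAlgCl p) := β.toAlgebra
  let β' : AlgebraicClosure (v.adicCompletion K) →ₐ[v.adicCompletion K] PadicAlgCl p :=
    IsAlgClosed.lift
  have hβ' : ∀ y : v.adicCompletion K, β' (algebraMap _ _ y) = β y := fun y => β'.commutes y
  let ι₀ : AlgebraicClosure K →ₐ[K] AlgebraicClosure (v.adicCompletion K) := IsAlgClosed.lift
  obtain ⟨σ₀, hσ₀⟩ := aut_of_two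
    ((β' : AlgebraicClosure (v.adicCompletion K) →+* PadicAlgCl p).comp
      (ι₀ : AlgebraicClosure K →+* AlgebraicClosure (v.adicCompletion K)))
    ((ι : QB →+* PadicAlgCl p).comp (e : AlgebraicClosure K →+* QB)) (by
      intro x
      change β' (ι₀ (algebraMap K _ x)) = ι (e (algebraMap K _ x))
      rw [ι₀.commutes]
      refine Eq.trans ?_ (hβ x)
      exact hβ' (algebraMap K (v.adicCompletion K) x))
  have hσ1 : ∀ x, ι (e x) = β' (ι₀ (σ₀ x)) := hσ₀
  let ι' : AlgebraicClosure K →ₐ[K] AlgebraicClosure (v.adicCompletion K) :=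
    ι₀.comp σ₀.toAlgHom
  have hι : ∀ x, ι (e x) = β' (ι' x) := hσ1
  obtain ⟨P', hP'⟩ := hf.2.1 v ι'
  have hs0 : ι u ≠ 0 := by
    rw [Ne, map_eq_zero]
    exact hu0
  have hd : β' (algebraMap K (AlgebraicClosure (v.adicCompletion K)) d) = (ι u) ^ 3 := by
    rw [← map_pow, hu, hι]
    congr 1
    exact (ι'.commutes d).symm
  have S : Sc (β' : AlgebraicClosure (v.adicCompletion K) →+* PadicAlgCl p) (ι u)⁻¹
      ((ED d).baseChange (AlgebraicClosure (v.adicCompletion K)))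
      (W0.baseChange (PadicAlgCl p)) := by
    refine ⟨inv_ne_zero hs0, ?_, ?_, ?_, ?_, ?_⟩
    · show algebraMap ℚ _ 0 = β' (algebraMap K _ 0) * _
      rw [map_zero, map_zero, map_zero, zero_mul]
    · show algebraMap ℚ _ 0 = β' (algebraMap K _ 0) * _
      rw [map_zero, map_zero, map_zero, zero_mul]
    · show algebraMap ℚ _ 1 = β' (algebraMap K _ d) * _
      rw [map_one, hd, ← mul_pow, mul_inv_cancel₀ hs0, one_pow]
    · show algebraMap ℚ _ 0 = β' (algebraMap K _ 0) * _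
      rw [map_zero, map_zero, map_zero, zero_mul]
    · show algebraMap ℚ _ 0 = β' (algebraMap K _ 0) * _
      rw [map_zero, map_zero, map_zero, zero_mul]
  let M : Pool.Agent.TH841.SH.D.Pt (ED d) (AlgebraicClosure (v.adicCompletion K)) →+
      Pt (PadicAlgCl p) :=
    { toFun := tF S
      map_zero' := rfl
      map_add' := tF_add S }
  have M_some : ∀ x y h, M (Affine.Point.some x y h :
      ((ED d).baseChange (AlgebraicClosure (v.adicCompletion K))).toAffine.Point) =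
      Affine.Point.some (β' x * ((ι u)⁻¹) ^ 2) (β' y * ((ι u)⁻¹) ^ 3)
        ((Pool.Agent.TH841.NF.ns_iff S x y).2 h) := fun _ _ _ => rfl
  have M_zero : M (0 : Pool.Agent.TH841.SH.D.Pt (ED d)
      (AlgebraicClosure (v.adicCompletion K))) = 0 := map_zero M
  -- compatibility of the two maps
  have hM1 : ∀ Q : Pool.Agent.TH841.SH.D.Pt (ED d) (AlgebraicClosure K),
      pm ι (Ψ Q) = M (Pool.Agent.TH841.SH.D.act (ED d) ι' Q) := by
    intro Q
    rcases Q with _ | ⟨x, y, h⟩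
    · have e1 : Ψ (0 : Pool.Agent.TH841.SH.D.Pt (ED d) (AlgebraicClosure K)) = 0 := map_zero Ψ
      have e2 : Pool.Agent.TH841.SH.D.act (ED d) ι'
        (0 : Pool.Agent.TH841.SH.D.Pt (ED d) (AlgebraicClosure K)) = 0 := map_zero _
      refine (congrArg (pm ι) e1).trans ?_
      rw [map_zero]
      exact ((congrArg M e2).trans M_zero).symm
    · obtain ⟨h', e1⟩ := hΨ x y h
      refine (congrArg (pm ι) e1).trans ?_
      rw [pm_some]
      refine (pt_eq _ _ ?_ ?_).trans (M_some (ι' x) (ι' y) _).symm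
      · rw [map_div₀, map_pow, hι, div_eq_mul_inv, inv_pow]
      · rw [map_div₀, map_pow, hι, div_eq_mul_inv, inv_pow]
  refine ⟨M P', fun τ σ hc => ?_⟩
  have hfx : ∀ y, τ (β y) = β y := by
    apply hfix
    intro x
    change τ (ι (e (algebraMap K _ x))) = ι (e (algebraMap K _ x))
    have h1 : e ((g.symm σ) (algebraMap K _ x)) = g (g.symm σ) (e (algebraMap K _ x)) := hg _ _
    rw [g.apply_symm_apply, (g.symm σ).commutes] at h1
    rw [hc, ← h1]
  obtain ⟨τ', hτ'⟩ := aut_of_two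
    (β' : AlgebraicClosure (v.adicCompletion K) →+* PadicAlgCl p)
    (((τ : PadicAlgCl p ≃+* PadicAlgCl p) : PadicAlgCl p →+* PadicAlgCl p).comp
      (β' : AlgebraicClosure (v.adicCompletion K) →+* PadicAlgCl p)) (by
      intro y
      change β' (algebraMap _ _ y) = τ (β' (algebraMap _ _ y))
      rw [hβ', hfx])
  have hτ2 : ∀ x, τ (β' x) = β' (τ' x) := hτ'
  have hτ3 : ∀ x, τ ((β' : AlgebraicClosure (v.adicCompletion K) →+* PadicAlgCl p) x) =
    β' (τ' x) := hτ2
  have hcomp : ∀ x, τ' (ι' x) = ι' (g.symm σ x) := by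
    intro x
    apply (β' : AlgebraicClosure (v.adicCompletion K) →+* PadicAlgCl p).injective
    change β' (τ' (ι' x)) = β' (ι' (g.symm σ x))
    rw [← hτ2, ← hι, ← hι, hc, hg, g.apply_symm_apply]
  have h1 := hP' τ' (g.symm σ) hcomp
  rw [hM1, h1, map_sub]
  congr 1
  -- the twisted action
  have hτu : τ (ι u) = (ι i₀) ^ (-a σ).val * ι u := by
    rw [hc, ha, map_mul, map_pow]
  obtain ⟨s1, s2⟩ := scal (iota_sq' hi ι) hs0 (a σ)
  rcases P' with _ | ⟨x, y, h⟩
  · have e2 : Pool.Agent.TH841.SH.D.act (ED d) (τ'.toAlgHom.restrictScalars K)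
      (0 : Pool.Agent.TH841.SH.D.Pt (ED d) (AlgebraicClosure (v.adicCompletion K))) = 0 :=
      map_zero _
    refine ((congrArg M e2).trans M_zero).trans ?_
    have e3 : pm (lh τ) (M (0 : Pool.Agent.TH841.SH.D.Pt (ED d)
      (AlgebraicClosure (v.adicCompletion K)))) = 0 := by rw [M_zero, map_zero]
    exact ((congrArg (jj (iota_sq' hi ι) (a σ)) e3).trans (jj_zero' _ _)).symm
  · have e1 : pm (lh τ) (M (Affine.Point.some x y h :
        ((ED d).baseChange (AlgebraicClosure (v.adicCompletion K))).toAffine.Point)) =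
        Affine.Point.some (lh τ (β' x * ((ι u)⁻¹) ^ 2)) (lh τ (β' y * ((ι u)⁻¹) ^ 3)) _ :=
      pm_some (lh τ) ((Pool.Agent.TH841.NF.ns_iff S x y).2 h)
    obtain ⟨h', e2⟩ := jj_some (iota_sq' hi ι) (a σ) ((Affine.baseChange_nonsingular W0.toAffine
      (lh τ).injective ..).mpr ((Pool.Agent.TH841.NF.ns_iff S x y).2 h))
    refine Eq.trans ?_ ((congrArg (jj (iota_sq' hi ι) (a σ)) e1).trans e2).symm
    refine (M_some (τ' x) (τ' y) _).trans (pt_eq _ _ ?_ ?_)
    · rw [lh_apply, map_mul, map_pow, map_inv₀, hτu, hτ3]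
      rw [mul_left_comm, s1]
    · rw [lh_apply, map_mul, map_pow, map_inv₀, hτu, hτ3, s2]

end loc

theorem sht : Pool.Agent.Y696.CTK.S_SHT := by
  intro hT K _ _ j D hD hS n x hx
  obtain ⟨e, i₀, hi, u, a, Ψ, g, hTw, he, hgc, hgc', hg, hΨ, hact⟩ := hT K j D hD
  have hSh := hS i₀ hi u a hTw
  have hev : ev i₀ hi D ≠ 0 := by
    intro h
    rw [← he, map_eq_zero, map_eq_zero] at h
    apply hD
    have h1 : j D = 0 := by exact_mod_cast h
    exact (map_eq_zero_iff j j.injective).1 h1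
  have hu0 : u ≠ 0 := by
    rintro rfl
    apply hev
    rw [← hTw.cube]
    ring
  have hu : u ^ 3 = e (algebraMap K (AlgebraicClosure K) (j D : K)) := by
    rw [he, hTw.cube]
  obtain ⟨f, rfl⟩ := QuotientAddGroup.mk_surjective x
  have hx1 : (QuotientAddGroup.mk ((3 ^ n : ℕ) • f) :
      Pool.Agent.TH841.NF.D.shaCoc (ED (j D : K)) ⧸
        (Pool.Agent.TH841.SH.D.cob (ED (j D : K))).addSubgroupOf
          (Pool.Agent.TH841.NF.D.shaCoc (ED (j D : K)))) = 0 := hx
  rw [QuotientAddGroup.eq_zero_iff, AddSubgroup.mem_addSubgroupOf] at hx1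
  obtain ⟨P, hP⟩ := hx1
  have hsha := f.2
  obtain ⟨⟨hc, hm⟩, -⟩ := f.2
  have hP' : ∀ σ, 3 ^ n • f.1 σ =
      Pool.Agent.TH841.SH.D.act (ED (j D : K)) σ.toAlgHom P - P := hP
  let f' : GK i₀ → Pt QB := fun σ => Ψ (f.1 (g.symm σ))
  have h1 : IsLocallyConstant f' := (hc.comp_continuous hgc').comp _
  have h2 : ∀ σ τ, f' (σ * τ) = f' σ + act hi a σ (f' τ) := by
    intro σ τ
    show Ψ (f.1 (g.symm (σ * τ))) = Ψ (f.1 (g.symm σ)) + act hi a σ (Ψ (f.1 (g.symm τ)))
    rw [map_mul, hm, map_add, hact, g.apply_symm_apply]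
  have h4 : ∃ Q, ∀ σ, 3 ^ n • f' σ = act hi a σ Q - Q := by
    refine ⟨Ψ P, fun σ => ?_⟩
    show 3 ^ n • Ψ (f.1 (g.symm σ)) = _
    rw [← map_nsmul, hP', map_sub, hact, g.apply_symm_apply]
  obtain ⟨R, hR⟩ := hSh n f' h1 h2 (fun p _ ι => local_part hi hu0 hu hTw.act hg hΨ hsha p ι) h4
  have hcob : IsCob (ED (j D : K)) f.1 := by
    refine ⟨Ψ.symm R, fun σ => ?_⟩
    apply Ψ.injective
    have h5 := hR (g σ)
    have h6 : f' (g σ) = Ψ (f.1 σ) := by
      show Ψ (f.1 (g.symm (g σ))) = _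
      rw [g.symm_apply_apply]
    rw [h6] at h5
    refine h5.trans ?_
    rw [map_sub, hact, AddEquiv.apply_symm_apply]
  have hgoal : (QuotientAddGroup.mk f :
      Pool.Agent.TH841.NF.D.shaCoc (ED (j D : K)) ⧸
        (Pool.Agent.TH841.SH.D.cob (ED (j D : K))).addSubgroupOf
          (Pool.Agent.TH841.NF.D.shaCoc (ED (j D : K)))) = 0 := by
    rw [QuotientAddGroup.eq_zero_iff, AddSubgroup.mem_addSubgroupOf]
    exact hcob
  exact hgoal

end Pool.Agent.Y891.CTK
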