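import Pool.Agent.Y696.CTK.Stm
import Pool.Agent.Y891.CTK.Sub

set_option autoImplicit false

/-!
# CTK-E0
-/

namespace Pool.Agent.Y891.CTK

theorem e0k : Pool.Agent.Y696.CTK.S_E0K := by
  intro L _ v W _ h1 h2 h3 h4 h6
  exact sub_of v W h1 h2 h3 h4 h6

end Pool.Agent.Y891.CTK
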